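import Mathlib

/-! A connected self 2-distance graph with a cut vertex. -/

namespace Pool.Agent.Results.MP_9880a5_co.CutVertex

open SimpleGraph

/-- The 2-distance graph. -/
def dist2 {V : Type} (G : SimpleGraph V) : SimpleGraph V where
  Adj x y := G.dist x y = 2
  symm := ⟨fun _ _ h => by rwa [dist_comm]⟩
  loopless := ⟨fun x h => by simp at h⟩

def E : List (Fin 13 × Fin 13) :=
  [(0, 1), (0, 2), (0, 3), (2, 4), (3, 5), (4, 9), (5, 6), (6, 7), (7, 8), (8, 10), (8, 11),
    (10, 11), (10, 12)]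

def G0 : SimpleGraph (Fin 13) where
  Adj a b := (a, b) ∈ E ∨ (b, a) ∈ E
  symm := ⟨fun _ _ h => h.symm⟩
  loopless := ⟨by decide⟩

instance : DecidableRel G0.Adj := fun a b => by unfold G0; infer_instance

lemma two_iff {V : Type} (G : SimpleGraph V) (x y : V) :
    G.dist x y = 2 ↔ x ≠ y ∧ ¬ G.Adj x y ∧ ∃ z, G.Adj x z ∧ G.Adj z y := by
  constructor
  · intro h
    refine ⟨by rintro rfl; simp at h, fun a => by simp [dist_eq_one_iff_adj.2 a] at h, ?_⟩
    obtain ⟨p, hp⟩ := exists_walk_of_dist_ne_zero (G := G) (u := x) (v := y) (by omega)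
    rw [h] at hp
    match p, hp with
    | .cons h1 (.cons h2 .nil), _ => exact ⟨_, h1, h2⟩
  · rintro ⟨h1, h2, z, h3, h4⟩
    have a := dist_le (Walk.cons h3 (Walk.cons h4 Walk.nil))
    have b := (h3.reachable.trans h4.reachable).one_lt_dist_of_ne_of_not_adj h1 h2
    simp at a
    omega

def p : Fin 13 → Fin 13 := ![4, 11, 10, 8, 9, 2, 7, 0, 6, 12, 1, 3, 5]

lemma conn : G0.Connected := by
  rw [connected_iff_exists_forall_reachable]
  refine ⟨0, fun v => ?_⟩
  have key : ∀ v : Fin 13, v = 0 ∨ ∃ w < v, G0.Adj w v := by decide +kernel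
  induction v using WellFoundedLT.induction with
  | ind v ih =>
    rcases key v with rfl | ⟨w, h1, h2⟩
    · rfl
    · exact (ih w h1).trans h2.reachable

theorem result : ∃ G : SimpleGraph (Fin 13), G.Connected ∧ Nonempty (dist2 G ≃g G) ∧
    ∃ v, ¬ (G.induce {v}ᶜ).Connected := by
  refine ⟨G0, conn, ⟨⟨Equiv.ofBijective p (by decide), ?_⟩⟩, 0, fun h => ?_⟩
  · intro a b
    change G0.Adj (p a) (p b) ↔ G0.dist a b = 2
    rw [two_iff]
    revert a b
    decide +kernel
  · obtain ⟨w⟩ := h.preconnected ⟨1, by decide⟩ ⟨2, by decide⟩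
    have key : ∀ z, G0.Adj 1 z → z = 0 := by decide
    generalize hu : (⟨1, _⟩ : ↥({0}ᶜ : Set (Fin 13))) = u at w
    generalize hv : (⟨2, _⟩ : ↥({0}ᶜ : Set (Fin 13))) = v at w
    cases w with
    | nil => exact absurd (hu.trans hv.symm) (by decide)
    | @cons _ z _ h _ => subst hu; exact z.2 (key _ h)

end Pool.Agent.Results.MP_9880a5_co.CutVertex
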